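import Pool.Agent.Helper56.RZ.GoalsC

set_option autoImplicit false

namespace Pool.Agent.Helper12.RZ

open Pool.Agent.Helper56.RZ

/-- Growth of the iterates on an invariant subbundle. -/
theorem an_growth {X : Type} [TopologicalSpace X] {K : ℕ} (D : Coc X K) (Q : X → End K)
    (r : X → ℝ) (R : ℝ) (hR : ∀ x, ‖Q x‖ ≤ R) (hQQ : ∀ x, Q x * Q x = Q x)
    (hTQ : ∀ x, D.T x * Q x = Q x) (hAQ : ∀ x, D.A x * Q x = Q (D.f x) * D.A x)
    (hr : ∀ x, ‖D.A x * Q x‖ ≤ Real.exp (r x)) (n : ℕ) (x : X) :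
    ‖D.An n x * Q x‖ ≤ R * Real.exp (∑ j ∈ Finset.range n, r (D.f^[j] x)) := by
  have hinv : ∀ n : ℕ, D.An n x * Q x = Q (D.f^[n] x) * (D.An n x * Q x) := by
    intro n
    induction n with
    | zero =>
      show D.T x * Q x = Q x * (D.T x * Q x)
      rw [hTQ, hQQ]
    | succ n ih =>
      show D.A (D.f^[n] x) * D.An n x * Q x = Q (D.f^[n + 1] x) * (D.A (D.f^[n] x) * D.An n x * Q x)
      have h1 : D.A (D.f^[n] x) * D.An n x * Q x =
          Q (D.f (D.f^[n] x)) * (D.A (D.f^[n] x) * (D.An n x * Q x)) := by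
        rw [mul_assoc]
        conv_lhs => rw [ih]
        rw [← mul_assoc, hAQ, mul_assoc]
      rw [h1, Function.iterate_succ_apply', ← mul_assoc (Q _) (Q _), hQQ]
  induction n with
  | zero =>
    show ‖D.T x * Q x‖ ≤ _
    rw [hTQ]
    simpa using hR x
  | succ n ih =>
    have h1 : D.An (n + 1) x * Q x =
        (D.A (D.f^[n] x) * Q (D.f^[n] x)) * (D.An n x * Q x) := by
      show D.A (D.f^[n] x) * D.An n x * Q x = _
      rw [mul_assoc, mul_assoc, ← hinv n]
    rw [h1, Finset.sum_range_succ, Real.exp_add]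
    calc ‖(D.A (D.f^[n] x) * Q (D.f^[n] x)) * (D.An n x * Q x)‖
        ≤ ‖D.A (D.f^[n] x) * Q (D.f^[n] x)‖ * ‖D.An n x * Q x‖ := norm_mul_le _ _
      _ ≤ Real.exp (r (D.f^[n] x)) *
          (R * Real.exp (∑ j ∈ Finset.range n, r (D.f^[j] x))) :=
        mul_le_mul (hr _) ih (norm_nonneg _) (Real.exp_pos _).le
      _ = _ := by ring

/-- The final arithmetic. -/
theorem arith (n N : ℕ) (Sa Sb Sc C0 L κ s0 s1 s2 x0 x1 x2 : ℝ) (hκ : 0 < κ) (hC0 : 0 ≤ C0)
    (hL : 0 ≤ L) (hSc : 0 ≤ Sc) (_h0 : 0 ≤ x0) (h1 : 0 ≤ x1) (h2 : 0 ≤ x2)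
    (hx0 : x0 ≤ Real.exp L * Real.exp s0) (hx1 : x1 ≤ Real.exp L * Real.exp s1)
    (hx2 : x2 ≤ Real.exp L * Real.exp s2) (hH : κ ≤ x0 * x2 * x1 ^ (N - 2))
    (hs1 : s1 = Sc + n * (C0 + L)) (hs : s0 + s2 = Sa - Sb + n * (2 * C0 + L)) :
    Sb - Sa ≤ N * Sc + n * (N + 2) * (C0 + L) + ((N + 2) * L + |Real.log κ|) := by
  set k : ℝ := ((N - 2 : ℕ) : ℝ) with hk
  have hk0 : 0 ≤ k := Nat.cast_nonneg _
  have hkN : k ≤ N := by
    rw [hk]
    exact_mod_cast Nat.sub_le N 2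
  have e1 : x0 * x2 * x1 ^ (N - 2) ≤ Real.exp ((L + s0) + (L + s2) + k * (L + s1)) := by
    have e2 : x1 ^ (N - 2) ≤ Real.exp (k * (L + s1)) := by
      rw [hk, Real.exp_nat_mul, Real.exp_add]
      exact pow_le_pow_left₀ h1 hx1 _
    rw [Real.exp_add, Real.exp_add, Real.exp_add L s0, Real.exp_add L s2]
    exact mul_le_mul (mul_le_mul hx0 hx2 h2 (by positivity)) e2 (by positivity) (by positivity)
  have e3 : Real.log κ ≤ (L + s0) + (L + s2) + k * (L + s1) :=
    (Real.log_le_iff_le_exp hκ).mpr (hH.trans e1)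
  have e4 : -Real.log κ ≤ |Real.log κ| := neg_le_abs _
  have hn : (0 : ℝ) ≤ n := Nat.cast_nonneg n
  have f1 : k * Sc ≤ N * Sc := mul_le_mul_of_nonneg_right hkN hSc
  have f2 : k * (n * (C0 + L)) ≤ N * (n * (C0 + L)) :=
    mul_le_mul_of_nonneg_right hkN (by positivity)
  have f3 : k * L ≤ N * L := mul_le_mul_of_nonneg_right hkN hL
  have f4 : 0 ≤ n * L := by positivity
  rw [hs1] at e3
  have e5 : Real.log κ ≤ 2 * L + (Sa - Sb + n * (2 * C0 + L)) +
      (k * L + (k * Sc + k * (n * (C0 + L)))) := by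
    have : (L + s0) + (L + s2) + k * (L + (Sc + n * (C0 + L))) =
      2 * L + (s0 + s2) + (k * L + (k * Sc + k * (n * (C0 + L)))) := by ring
    rw [this, hs] at e3
    exact e3
  nlinarith

theorem bs : StmtBS := by
  intro X _ _ K N D P a b c C0 R κ hP hr hC0 hR hPR hκ H1 H2
  set L : ℝ := Real.log R with hL
  have hR0 : 0 < R := by linarith
  have hL0 : 0 ≤ L := Real.log_nonneg hR
  have hexpL : Real.exp L = R := Real.exp_log hR0
  have hPP : ∀ i x, P i x * P i x = P i x := by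
    intro i x
    have := hP.proj x i i
    rwa [if_pos rfl] at this
  have h10 : ∀ x, P 1 x * P 0 x = 0 := fun x => by
    have := hP.proj x 1 0
    rwa [if_neg (by decide)] at this
  have h01 : ∀ x, P 0 x * P 1 x = 0 := fun x => by
    have := hP.proj x 0 1
    rwa [if_neg (by decide)] at this
  have h21 : ∀ x, P 2 x * P 1 x = 0 := fun x => by
    have := hP.proj x 2 1
    rwa [if_neg (by decide)] at this
  have hTP : ∀ i x, D.T x * P i x = P i x := by
    intro i x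
    rw [← hP.sum x, add_mul, add_mul, hP.proj, hP.proj, hP.proj]
    fin_cases i <;> simp
  have hPT : ∀ i x, P i x * D.T x = P i x := by
    intro i x
    rw [← hP.sum x, mul_add, mul_add, hP.proj, hP.proj, hP.proj]
    fin_cases i <;> simp
  have hBP : ∀ i z, D.B (D.f z) * P i (D.f z) = P i z * D.B (D.f z) := by
    intro i z
    have h1 := hP.inv z i
    have h2 : D.B (D.f z) * (D.A z * P i z) * D.B (D.f z) =
        D.B (D.f z) * (P i (D.f z) * D.A z) * D.B (D.f z) := by rw [h1]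
    have h3 : D.B (D.f z) * (D.A z * P i z) * D.B (D.f z) = P i z * D.B (D.f z) := by
      rw [← mul_assoc (D.B (D.f z)), D.BA, hTP]
    have h4 : D.B (D.f z) * (P i (D.f z) * D.A z) * D.B (D.f z) =
        D.B (D.f z) * P i (D.f z) := by
      rw [mul_assoc, mul_assoc (P i (D.f z)), D.AB, hPT]
    rw [← h4, ← h2, h3]
  -- forward rates
  have F0 : ∀ x, ‖D.A x * P 0 x‖ ≤ Real.exp (- b x + C0) := hr.A0
  have F2 : ∀ x, ‖D.A x * P 2 x‖ ≤ Real.exp (a x + (C0 + L)) := by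
    intro x
    calc ‖D.A x * P 2 x‖ ≤ ‖D.A x‖ * ‖P 2 x‖ := norm_mul_le _ _
      _ ≤ Real.exp (a x + C0) * R :=
        mul_le_mul (hr.nA x) (hPR 2 x) (norm_nonneg _) (Real.exp_pos _).le
      _ = _ := by rw [← hexpL, ← Real.exp_add]; congr 1; ring
  have F1 : ∀ x, ‖D.A x * P 1 x‖ ≤ Real.exp (c x + (C0 + L)) := by
    intro x
    have e : D.A x * P 1 x = D.A x * (P 0 x + P 1 x) * P 1 x := by
      rw [mul_assoc, add_mul, h01, hPP, zero_add]
    rw [e]
    calc ‖D.A x * (P 0 x + P 1 x) * P 1 x‖ ≤ ‖D.A x * (P 0 x + P 1 x)‖ * ‖P 1 x‖ :=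
          norm_mul_le _ _
      _ ≤ Real.exp (c x + C0) * R :=
        mul_le_mul (hr.A1 x) (hPR 1 x) (norm_nonneg _) (Real.exp_pos _).le
      _ = _ := by rw [← hexpL, ← Real.exp_add]; congr 1; ring
  -- backward rates
  have G0 : ∀ x, ‖D.inv.A x * P 0 x‖ ≤ Real.exp (b (D.f.symm x) + (C0 + L)) := by
    intro x
    show ‖D.B x * P 0 x‖ ≤ _
    have h1 := hr.nB (D.f.symm x)
    rw [Homeomorph.apply_symm_apply] at h1
    calc ‖D.B x * P 0 x‖ ≤ ‖D.B x‖ * ‖P 0 x‖ := norm_mul_le _ _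
      _ ≤ Real.exp (b (D.f.symm x) + C0) * R :=
        mul_le_mul h1 (hPR 0 x) (norm_nonneg _) (Real.exp_pos _).le
      _ = _ := by rw [← hexpL, ← Real.exp_add]; congr 1; ring
  have G2 : ∀ x, ‖D.inv.A x * P 2 x‖ ≤ Real.exp (- a (D.f.symm x) + C0) := by
    intro x
    show ‖D.B x * P 2 x‖ ≤ _
    have h1 := hr.B2 (D.f.symm x)
    rw [Homeomorph.apply_symm_apply] at h1
    exact h1
  have G1 : ∀ x, ‖D.inv.A x * P 1 x‖ ≤ Real.exp (c (D.f.symm x) + (C0 + L)) := by
    intro x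
    show ‖D.B x * P 1 x‖ ≤ _
    have h1 := hr.B1 (D.f.symm x)
    rw [Homeomorph.apply_symm_apply] at h1
    have e : D.B x * P 1 x = D.B x * (P 1 x + P 2 x) * P 1 x := by
      rw [mul_assoc, add_mul, h21, hPP, add_zero]
    rw [e]
    calc ‖D.B x * (P 1 x + P 2 x) * P 1 x‖ ≤ ‖D.B x * (P 1 x + P 2 x)‖ * ‖P 1 x‖ :=
          norm_mul_le _ _
      _ ≤ Real.exp (c (D.f.symm x) + C0) * R :=
        mul_le_mul h1 (hPR 1 x) (norm_nonneg _) (Real.exp_pos _).le
      _ = _ := by rw [← hexpL, ← Real.exp_add]; congr 1; ring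
  have hBinv : ∀ i x, D.inv.A x * P i x = P i (D.inv.f x) * D.inv.A x := by
    intro i x
    show D.B x * P i x = P i (D.f.symm x) * D.B x
    have h1 := hBP i (D.f.symm x)
    rw [Homeomorph.apply_symm_apply] at h1
    exact h1
  -- reflection of the sums
  have hrefl : ∀ (n : ℕ) (x : X) (g : X → ℝ),
      ∑ j ∈ Finset.range n, g (D.f.symm (D.inv.f^[j] (D.f^[n] x))) =
        ∑ j ∈ Finset.range n, g (D.f^[j] x) := by
    intro n x g
    rw [← Finset.sum_range_reflect]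
    refine Finset.sum_congr rfl fun j hj => ?_
    rw [Finset.mem_range] at hj
    congr 1
    have h1 : ∀ m : ℕ, ∀ y : X, (D.f.symm)^[m] (D.f^[m] y) = y := by
      intro m y
      have hli : Function.LeftInverse (D.f.symm : X → X) D.f := D.f.symm_apply_apply
      exact (hli.iterate m) y
    show D.f.symm ((D.f.symm)^[n - 1 - j] (D.f^[n] x)) = D.f^[j] x
    rw [← Function.iterate_succ_apply' (D.f.symm : X → X)]
    have h2 : n = (n - 1 - j + 1) + j := by omega
    have h3 : D.f^[n] x = D.f^[n - 1 - j + 1] (D.f^[j] x) := by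
      rw [← Function.iterate_add_apply, ← h2]
    rw [h3]
    exact h1 _ _
  refine ⟨(N + 2) * L + |Real.log κ|, by positivity, fun n x => ?_⟩
  have hSc : 0 ≤ ∑ j ∈ Finset.range n, c (D.f^[j] x) :=
    Finset.sum_nonneg fun j _ => hr.cpos _
  rw [abs_le]
  constructor
  · -- forward
    have A0 := an_growth D (P 0) (fun y => - b y + C0) R (hPR 0) (hPP 0) (hTP 0)
      (fun x => hP.inv x 0) F0 n x
    have A1 := an_growth D (P 1) (fun y => c y + (C0 + L)) R (hPR 1) (hPP 1) (hTP 1)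
      (fun x => hP.inv x 1) F1 n x
    have A2 := an_growth D (P 2) (fun y => a y + (C0 + L)) R (hPR 2) (hPP 2) (hTP 2)
      (fun x => hP.inv x 2) F2 n x
    rw [← hexpL] at A0 A1 A2
    have h := arith n N (∑ j ∈ Finset.range n, a (D.f^[j] x)) (∑ j ∈ Finset.range n, b (D.f^[j] x))
      (∑ j ∈ Finset.range n, c (D.f^[j] x)) C0 L κ _ _ _ _ _ _ hκ hC0 hL0 hSc (norm_nonneg _)
      (norm_nonneg _) (norm_nonneg _) A0 A1 A2 (H1 n x) (by
        simp only [Finset.sum_add_distrib, Finset.sum_const, Finset.card_range, nsmul_eq_mul]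
        ring) (by
        simp only [Finset.sum_add_distrib, Finset.sum_const, Finset.card_range, nsmul_eq_mul,
          Finset.sum_neg_distrib]
        ring)
    rw [Finset.sum_sub_distrib]
    linarith
  · -- backward
    have A0 := an_growth D.inv (P 0) (fun y => b (D.f.symm y) + (C0 + L)) R (hPR 0) (hPP 0)
      (hTP 0) (hBinv 0) G0 n (D.f^[n] x)
    have A1 := an_growth D.inv (P 1) (fun y => c (D.f.symm y) + (C0 + L)) R (hPR 1) (hPP 1)
      (hTP 1) (hBinv 1) G1 n (D.f^[n] x)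
    have A2 := an_growth D.inv (P 2) (fun y => - a (D.f.symm y) + C0) R (hPR 2) (hPP 2)
      (hTP 2) (hBinv 2) G2 n (D.f^[n] x)
    rw [← hexpL] at A0 A1 A2
    have h := arith n N (∑ j ∈ Finset.range n, b (D.f^[j] x)) (∑ j ∈ Finset.range n, a (D.f^[j] x))
      (∑ j ∈ Finset.range n, c (D.f^[j] x)) C0 L κ _ _ _ _ _ _ hκ hC0 hL0 hSc (norm_nonneg _)
      (norm_nonneg _) (norm_nonneg _) A0 A1 A2 (H2 n (D.f^[n] x)) (by
        rw [← hrefl n x c]
        simp only [Finset.sum_add_distrib, Finset.sum_const, Finset.card_range, nsmul_eq_mul]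
        ring) (by
        rw [← hrefl n x b, ← hrefl n x a]
        simp only [Finset.sum_add_distrib, Finset.sum_const, Finset.card_range, nsmul_eq_mul,
          Finset.sum_neg_distrib]
        ring)
    rw [Finset.sum_sub_distrib]
    linarith

end Pool.Agent.Helper12.RZ
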