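import Pool.Agent.Helper56.RZ.GoalsB

/-!
# PACKET RZ-F2 (MP_f32c9c_an): the twist preserves volume
-/

set_option autoImplicit false

open Set Filter Topology MeasureTheory

open scoped ContDiff

namespace Pool.Agent.Helper12.RZ

open Pool.Agent.Helper56.RZ

variable {N : ℕ} {p : Fin 3 → End N}

theorem wc_eu (hp : Proj3 p) (d : Tw N p) : d.wc d.eu = 0 := by
  have h : p 1 (p 2 d.eu) = 0 := by
    have := hp.proj 1 2
    rw [if_neg (by decide)] at this
    have h2 := congrArg (fun A : End N => A d.eu) this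
    simpa using h2
  rw [← d.wcp, ← d.peu, h, map_zero]

theorem wu_ec (hp : Proj3 p) (d : Tw N p) : d.wu d.ec = 0 := by
  have h : p 2 (p 1 d.ec) = 0 := by
    have := hp.proj 2 1
    rw [if_neg (by decide)] at this
    have h2 := congrArg (fun A : End N => A d.ec) this
    simpa using h2
  rw [← d.wup, ← d.pec, h, map_zero]

/-- the projection onto the plane -/
noncomputable def P0 (d : Tw N p) : End N := d.wc.smulRight d.ec + d.wu.smulRight d.eu

/-- the rotation -/
noncomputable def rot (d : Tw N p) (a b : ℝ) : E N →ₗ[ℝ] E N :=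
  ((1 + (a - 1) • P0 d + b • d.J : End N) : E N →ₗ[ℝ] E N)

/-- the reflection -/
noncomputable def refl (d : Tw N p) : E N →ₗ[ℝ] E N :=
  ((1 - (2 : ℝ) • d.wc.smulRight d.ec : End N) : E N →ₗ[ℝ] E N)

theorem P0_apply (d : Tw N p) (v : E N) : P0 d v = d.wc v • d.ec + d.wu v • d.eu := rfl

theorem J_apply (d : Tw N p) (v : E N) : d.J v = d.wc v • d.eu - d.wu v • d.ec := rfl

theorem rot_apply (d : Tw N p) (a b : ℝ) (v : E N) :
    rot d a b v = v + (a - 1) • P0 d v + b • d.J v := rfl

theorem refl_apply (d : Tw N p) (v : E N) :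
    refl d v = v - (2 : ℝ) • (d.wc v • d.ec) := rfl

theorem wc_P0 (hp : Proj3 p) (d : Tw N p) (v : E N) : d.wc (P0 d v) = d.wc v := by
  rw [P0_apply, map_add, map_smul, map_smul, d.wcec, wc_eu hp d]
  simp

theorem wu_P0 (hp : Proj3 p) (d : Tw N p) (v : E N) : d.wu (P0 d v) = d.wu v := by
  rw [P0_apply, map_add, map_smul, map_smul, d.wueu, wu_ec hp d]
  simp

theorem wc_J (hp : Proj3 p) (d : Tw N p) (v : E N) : d.wc (d.J v) = - d.wu v := by
  rw [J_apply, map_sub, map_smul, map_smul, d.wcec, wc_eu hp d]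
  simp

theorem wu_J (hp : Proj3 p) (d : Tw N p) (v : E N) : d.wu (d.J v) = d.wc v := by
  rw [J_apply, map_sub, map_smul, map_smul, d.wueu, wu_ec hp d]
  simp

theorem rot_comp (hp : Proj3 p) (d : Tw N p) (a b : ℝ) (h : a ^ 2 + b ^ 2 = 1) :
    rot d a b ∘ₗ rot d a (-b) = LinearMap.id := by
  ext1 v
  rw [LinearMap.comp_apply, LinearMap.id_apply, rot_apply d a b, rot_apply d a (-b),
    P0_apply d (v + _ + _), J_apply d (v + _ + _)]
  simp only [map_add, map_smul, wc_P0 hp, wu_P0 hp, wc_J hp, wu_J hp, smul_eq_mul]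
  rw [P0_apply, J_apply]
  have h2 : b ^ 2 = 1 - a ^ 2 := by linarith
  match_scalars <;> ring_nf <;> rw [h2] <;> ring

theorem refl_comp (d : Tw N p) : refl d ∘ₗ refl d = LinearMap.id := by
  ext1 v
  rw [LinearMap.comp_apply, LinearMap.id_apply, refl_apply d (refl d v), refl_apply]
  simp only [map_sub, map_smul, d.wcec, smul_eq_mul]
  match_scalars <;> ring

theorem refl_rot (hp : Proj3 p) (d : Tw N p) (a b : ℝ) :
    refl d ∘ₗ rot d a b ∘ₗ refl d = rot d a (-b) := by
  ext1 v
  rw [LinearMap.comp_apply, LinearMap.comp_apply, refl_apply d (rot d a b (refl d v)),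
    rot_apply d a b, P0_apply d (refl d v), J_apply d (refl d v), refl_apply, rot_apply,
    P0_apply, J_apply]
  simp only [map_add, map_sub, map_smul, d.wcec, d.wueu, wc_eu hp, wu_ec hp, smul_eq_mul]
  match_scalars <;> ring

theorem abs_det_rot (hp : Proj3 p) (d : Tw N p) (a b : ℝ) (h : a ^ 2 + b ^ 2 = 1) :
    |LinearMap.det (rot d a b)| = 1 := by
  have h1 : LinearMap.det (rot d a b) * LinearMap.det (rot d a (-b)) = 1 := by
    rw [← LinearMap.det_comp, rot_comp hp d a b h, LinearMap.det_id]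
  have h2 : LinearMap.det (refl d) * LinearMap.det (refl d) = 1 := by
    rw [← LinearMap.det_comp, refl_comp d, LinearMap.det_id]
  have h3 : LinearMap.det (rot d a (-b)) = LinearMap.det (rot d a b) := by
    rw [← refl_rot hp d a b, LinearMap.det_comp, LinearMap.det_comp]
    linear_combination LinearMap.det (rot d a b) * h2
  rw [h3] at h1
  have h4 : |LinearMap.det (rot d a b)| * |LinearMap.det (rot d a b)| = 1 := by
    rw [← abs_mul, h1, abs_one]
  have h5 := abs_nonneg (LinearMap.det (rot d a b))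
  nlinarith

theorem hasFDerivAt_q (d : Tw N p) (z : E N) :
    HasFDerivAt d.q ((2 * d.wc z) • d.wc + (2 * d.wu z) • d.wu +
      (2 : ℕ) • (innerSL ℝ (d.R z)).comp d.R) z := by
  have h1 : HasFDerivAt (fun z => (d.wc z) ^ 2) ((2 * d.wc z) • d.wc) z := by
    have := (d.wc.hasFDerivAt (x := z)).pow 2
    simpa using this
  have h2 : HasFDerivAt (fun z => (d.wu z) ^ 2) ((2 * d.wu z) • d.wu) z := by
    have := (d.wu.hasFDerivAt (x := z)).pow 2
    simpa using this
  have h3 : HasFDerivAt (fun z => ‖d.R z‖ ^ 2) ((2 : ℕ) • (innerSL ℝ (d.R z)).comp d.R) z :=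
    (d.R.hasFDerivAt (x := z)).norm_sq
  exact (h1.add h2).add h3

theorem R_J (hp : Proj3 p) (d : Tw N p) (z : E N) : d.R (d.J z) = 0 := by
  have : d.R (d.J z) = d.J z - d.wc (d.J z) • d.ec - d.wu (d.J z) • d.eu := rfl
  rw [this, wc_J hp, wu_J hp, J_apply]
  match_scalars <;> ring

theorem fderiv_q_J (hp : Proj3 p) (d : Tw N p) (z : E N) : fderiv ℝ d.q z (d.J z) = 0 := by
  rw [(hasFDerivAt_q d z).fderiv]
  simp only [ContinuousLinearMap.add_apply, ContinuousLinearMap.smul_apply,
    ContinuousLinearMap.comp_apply, R_J hp, map_zero, wc_J hp, wu_J hp, smul_eq_mul, smul_zero]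
  ring

theorem differentiable_be : Differentiable ℝ Tw.be := by
  have : ContDiff ℝ 1 Tw.be := by
    unfold Tw.be
    exact Real.smoothTransition.contDiff.comp (by fun_prop)
  exact this.differentiable one_ne_zero

theorem hasFDerivAt_ang (hp : Proj3 p) (d : Tw N p) (t : ℝ) (z : E N) :
    ∃ L : E N →L[ℝ] ℝ, HasFDerivAt (fun z => t * Tw.be (d.q z)) L z ∧ L (d.J z) = 0 := by
  have h1 : HasFDerivAt (fun z => t * Tw.be (d.q z))
      (t • ((deriv Tw.be (d.q z)) • fderiv ℝ d.q z)) z := by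
    have h2 : HasFDerivAt d.q (fderiv ℝ d.q z) z := (hasFDerivAt_q d z).differentiableAt.hasFDerivAt
    have h3 := ((differentiable_be (d.q z)).hasDerivAt).comp_hasFDerivAt z h2
    exact h3.const_mul t
  refine ⟨_, h1, ?_⟩
  simp only [ContinuousLinearMap.smul_apply, fderiv_q_J hp, smul_zero]

theorem hasFDerivAt_H (hp : Proj3 p) (d : Tw N p) (t : ℝ) (z : E N) :
    ∃ D : End N, HasFDerivAt (d.H t) D z ∧ |D.det| = 1 := by
  obtain ⟨L, hL, hLJ⟩ := hasFDerivAt_ang hp d t z
  have hc := (hL.cos.sub_const 1).smul ((P0 d).hasFDerivAt (x := z))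
  have hs := hL.sin.smul (d.J.hasFDerivAt (x := z))
  have hH := ((hasFDerivAt_id (𝕜 := ℝ) z).add hc).add hs
  refine ⟨_, hH, ?_⟩
  have e : ((ContinuousLinearMap.id ℝ (E N) +
      ((Real.cos (t * Tw.be (d.q z)) - 1) • P0 d +
        (-Real.sin (t * Tw.be (d.q z)) • L).smulRight (P0 d z)) +
      (Real.sin (t * Tw.be (d.q z)) • d.J +
        (Real.cos (t * Tw.be (d.q z)) • L).smulRight (d.J z)) : End N) : E N →ₗ[ℝ] E N) =
      rot d (Real.cos (t * Tw.be (d.q z))) (Real.sin (t * Tw.be (d.q z))) ∘ₗ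
        LinearMap.transvection (L : E N →ₗ[ℝ] ℝ) (d.J z) := by
    ext1 v
    rw [LinearMap.comp_apply]
    have hT : LinearMap.transvection (L : E N →ₗ[ℝ] ℝ) (d.J z) v = v + L v • d.J z := rfl
    rw [hT, map_add, map_smul, rot_apply, rot_apply]
    have e1 : P0 d (d.J z) = d.J z := by
      rw [P0_apply, wc_J hp, wu_J hp, J_apply]
      match_scalars <;> ring
    have e2 : d.J (d.J z) = - P0 d z := by
      rw [J_apply d (d.J z), wc_J hp, wu_J hp, P0_apply]
      match_scalars <;> ring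
    rw [e1, e2]
    simp only [ContinuousLinearMap.coe_coe, ContinuousLinearMap.add_apply,
      ContinuousLinearMap.smul_apply, ContinuousLinearMap.smulRight_apply,
      ContinuousLinearMap.coe_id', id_eq, smul_eq_mul]
    match_scalars <;> ring
  rw [ContinuousLinearMap.det]
  erw [e]
  rw [LinearMap.det_comp, LinearMap.transvection.det]
  have : (L : E N →ₗ[ℝ] ℝ) (d.J z) = 0 := hLJ
  rw [this, add_zero, mul_one]
  exact abs_det_rot hp d _ _ (Real.cos_sq_add_sin_sq _)

theorem f2 (h : StmtF1) : StmtF2 := by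
  intro N p hp d t
  have hD : ∀ z, |(fderiv ℝ (d.H t) z).det| = 1 := by
    intro z
    obtain ⟨D, hD, hdet⟩ := hasFDerivAt_H hp d t z
    rw [hD.fderiv]
    exact hdet
  refine ⟨hD, fun A hA => ?_⟩
  have hinj : Function.Injective (d.H t) := by
    intro x y hxy
    have h1 := ((h N p hp).2 d).2.2.2.2.1 t
    rw [← h1 x, ← h1 y, hxy]
  have h2 := lintegral_abs_det_fderiv_eq_addHaar_image (volume : Measure (E N)) hA
    (f := d.H t) (f' := fun z => fderiv ℝ (d.H t) z) (fun x _ => by
      obtain ⟨D, hD, _⟩ := hasFDerivAt_H hp d t x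
      rw [hD.fderiv]
      exact hD.hasFDerivWithinAt) hinj.injOn
  rw [← h2]
  simp only [hD, ENNReal.ofReal_one, lintegral_const, Measure.restrict_apply MeasurableSet.univ,
    univ_inter, one_mul]

end Pool.Agent.Helper12.RZ
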