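import Pool.Agent.Helper56.RZ.GoalsB

/-!
# PACKET RZ-OR (MP_f32c9c_an): orbits, neighbourhoods of a non-periodic point
-/

set_option autoImplicit false

open Set Filter Topology MeasureTheory

open scoped ContDiff

namespace Pool.Agent.Helper12.RZ

open Pool.Agent.Helper56.RZ

theorem orb : StmtORB := by
  intro X _ K C H e B J h1 h2 h3 h4 x hx j hj1 hj2
  have hf : ∀ y, (C.comp H e).f y = C.f (H.f y) := fun y => rfl
  have hs : ∀ y, (C.comp H e).f.symm y = H.f.symm (C.f.symm y) := fun y => rfl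
  constructor
  · have key : ∀ i, i + 1 ≤ J → (C.comp H e).f^[i + 1] x = C.f^[i + 1] (H.f x) := by
      intro i
      induction i with
      | zero =>
        intro _
        simp [hf]
      | succ i ih =>
        intro hi
        rw [Function.iterate_succ_apply', ih (by omega), hf,
          (h3 _ (h4 (i + 1) (by omega) (by omega) _ (h1 x hx))).1,
          ← Function.iterate_succ_apply' (C.f) (i + 1)]
    obtain ⟨i, rfl⟩ : ∃ i, j = i + 1 := ⟨j - 1, by omega⟩
    rw [key i hj2]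
    exact h3 _ (h4 (i + 1) hj1 hj2 _ (h1 x hx))
  · have hback : ∀ i, 1 ≤ i → i ≤ J → C.f.symm^[i] x ∉ B := by
      intro i hi1 hi2 hmem
      apply h4 i hi1 hi2 _ hmem
      have : Function.LeftInverse (C.f^[i]) (C.f.symm^[i]) :=
        Function.LeftInverse.iterate (fun y => C.f.apply_symm_apply y) i
      rw [this x]
      exact hx
    have key : ∀ i, i ≤ J → (C.comp H e).f.symm^[i] x = C.f.symm^[i] x := by
      intro i
      induction i with
      | zero => intro _; rfl
      | succ i ih =>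
        intro hi
        rw [Function.iterate_succ_apply', ih (by omega), hs, Function.iterate_succ_apply',
          Homeomorph.symm_apply_eq]
        have h5 := (h3 _ (hback (i + 1) (by omega) hi)).1
        rw [Function.iterate_succ_apply'] at h5
        exact h5.symm
    rw [key j hj2]
    exact h3 _ (hback j hj1 hj2)

theorem nb (hF : StmtF1) : StmtNB := by
  intro N K M c p hp d z0 hz0 f hmaps hcont hne J
  obtain ⟨C, hC1, hC⟩ := ((hF N p hp).2 d).2.2.2.2.2.2.2
  have hR : ∀ y, d.q y ≤ 1 → ‖y‖ ≤ C := by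
    intro y hy
    have h1 := (hC y).1
    have h2 : ‖y‖ ^ 2 ≤ C ^ 2 := by nlinarith
    exact abs_le_of_sq_le_sq' h2 (by linarith) |>.2
  have hVM : MapsTo c.ψ c.V M := fun z hz => (c.mapsψ z hz).1
  have hψ : ContinuousAt c.ψ z0 := c.smoothψ.continuousOn.continuousAt (c.openV.mem_nhds hz0)
  have hg : ∀ j, ContinuousAt (fun z => f^[j] (c.ψ z)) z0 := fun j =>
    ((hcont.iterate hmaps j).comp c.smoothψ.continuousOn hVM).continuousAt
      (c.openV.mem_nhds hz0)
  have hev : ∀ j ∈ Finset.Icc 1 J, ∀ᶠ w : E N × E N in 𝓝 (z0, z0),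
      f^[j] (c.ψ w.1) ≠ c.ψ w.2 := by
    intro j hj
    rw [Finset.mem_Icc] at hj
    have a1 : Tendsto (fun w : E N × E N => f^[j] (c.ψ w.1)) (𝓝 (z0, z0))
        (𝓝 (f^[j] (c.ψ z0))) := (hg j).tendsto.comp (continuous_fst.tendsto (z0, z0))
    have a2 : Tendsto (fun w : E N × E N => c.ψ w.2) (𝓝 (z0, z0)) (𝓝 (c.ψ z0)) :=
      hψ.tendsto.comp (continuous_snd.tendsto (z0, z0))
    have h1 : Tendsto (fun w : E N × E N => (f^[j] (c.ψ w.1), c.ψ w.2)) (𝓝 (z0, z0))
        (𝓝 (f^[j] (c.ψ z0), c.ψ z0)) := a1.prodMk_nhds a2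
    have h2 : IsOpen {w : E K × E K | w.1 ≠ w.2} := isOpen_ne_fun continuous_fst continuous_snd
    exact h1 (h2.mem_nhds (hne j hj.1))
  have hall : ∀ᶠ w : E N × E N in 𝓝 (z0, z0), w.1 ∈ c.V ∧
      ∀ j ∈ Finset.Icc 1 J, f^[j] (c.ψ w.1) ≠ c.ψ w.2 := by
    refine Filter.Eventually.and ?_ ((Filter.eventually_all_finset _).2 hev)
    exact continuousAt_fst (c.openV.mem_nhds hz0)
  obtain ⟨ε, hε, hball⟩ := Metric.eventually_nhds_iff.1 hall
  refine ⟨ε / (2 * C), by positivity, fun ρ hρ hρ1 => ?_⟩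
  have hdist : ∀ y, d.q y ≤ 1 → dist (z0 + ρ • y) z0 < ε := by
    intro y hy
    rw [dist_eq_norm, add_sub_cancel_left, norm_smul, Real.norm_of_nonneg hρ.le]
    have h1 : ρ * ‖y‖ ≤ ε / (2 * C) * C :=
      mul_le_mul hρ1 (hR y hy) (norm_nonneg _) (by positivity)
    have h2 : ε / (2 * C) * C = ε / 2 := by
      field_simp
    linarith
  refine ⟨fun y hy => ?_, fun j hj1 hj2 y y' hy hy' => ?_⟩
  · have := hball (y := (z0 + ρ • y, z0 + ρ • y))
      (by rw [Prod.dist_eq]; exact max_lt (hdist y hy) (hdist y hy))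
    exact this.1
  · have := hball (y := (z0 + ρ • y, z0 + ρ • y'))
      (by rw [Prod.dist_eq]; exact max_lt (hdist y hy) (hdist y' hy'))
    exact this.2 j (Finset.mem_Icc.2 ⟨hj1, hj2⟩)

end Pool.Agent.Helper12.RZ
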